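import Pool.Agent.H55.CG.Targets

/-!
# Row DCW of cog_modules: the coefficient
-/

set_option autoImplicit false

open MeasureTheory ProbabilityTheory Filter Topology
open Pool.Agent.H95 Pool.Agent.H95.Cop Pool.Agent.H55.CG

namespace Pool.Agent.H1.CG

private theorem wL_nonneg {c : ℝ} (hc : 0 < c) (L : List (ℕ × ℕ)) : 0 ≤ wL c L := by
  induction L with
  | nil =>
    rw [wL]
    exact zero_le_one
  | cons p L ih =>
    rw [wL]
    positivity

private theorem factor {α a b : ℝ} (hα : 0 < α) (ha : 0 < a) (ha1 : a ≤ 1) (hb : 0 < b) (u : ℕ) :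
    0 < a * (2 * (u : ℝ) + 1) ^ (-(1 + α)) ∧ a * (2 * (u : ℝ) + 1) ^ (-(1 + α)) ≤ 1 ∧
      a * b / (2 * (u : ℝ) + 1) ≤ (a * (2 * (u : ℝ) + 1) ^ (-(1 + α))) ^ (1 / (1 + α)) * b := by
  have hu : (0 : ℝ) < 2 * (u : ℝ) + 1 := by positivity
  have hu1 : (1 : ℝ) ≤ 2 * (u : ℝ) + 1 := by
    have : (0 : ℝ) ≤ u := Nat.cast_nonneg _
    linarith
  have h1 : 0 < (2 * (u : ℝ) + 1) ^ (-(1 + α)) := Real.rpow_pos_of_pos hu _
  have h2 : (2 * (u : ℝ) + 1) ^ (-(1 + α)) ≤ 1 :=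
    Real.rpow_le_one_of_one_le_of_nonpos hu1 (by linarith)
  have hα1 : (0 : ℝ) < 1 + α := by linarith
  refine ⟨mul_pos ha h1, ?_, ?_⟩
  · calc a * (2 * (u : ℝ) + 1) ^ (-(1 + α)) ≤ 1 * 1 := mul_le_mul ha1 h2 h1.le zero_le_one
      _ = 1 := one_mul 1
  · rw [Real.mul_rpow ha.le h1.le, ← Real.rpow_mul hu.le]
    have h3 : -(1 + α) * (1 / (1 + α)) = -1 := by
      field_simp
    rw [h3, Real.rpow_neg_one]
    have h4 : a ≤ a ^ (1 / (1 + α)) := by
      have h5 : a ^ (1 : ℝ) ≤ a ^ (1 / (1 + α)) := by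
        refine Real.rpow_le_rpow_of_exponent_ge ha ha1 ?_
        rw [div_le_one hα1]
        linarith
      rwa [Real.rpow_one] at h5
    have h6 : a * b / (2 * (u : ℝ) + 1) = a * ((2 * (u : ℝ) + 1)⁻¹ * b) := by
      rw [div_eq_mul_inv]
      ring
    rw [h6, mul_assoc]
    exact mul_le_mul_of_nonneg_right h4 (by positivity)

theorem pf_DCW : T_DCW := by
  intro α a b hα ha ha1 hb L
  induction L with
  | nil =>
    refine ⟨?_, ?_, ?_⟩
    · rw [dc]
      exact one_pos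
    · rw [dc]
    · rw [dc, wL, Real.one_rpow]
      simp
  | cons p L ih =>
    obtain ⟨h1, h2, h3⟩ := ih
    obtain ⟨e1, e2, e3⟩ := factor hα ha ha1 hb p.1
    obtain ⟨f1, f2, f3⟩ := factor hα ha ha1 hb p.2
    rw [dc]
    refine ⟨mul_pos (mul_pos e1 f1) h1, ?_, ?_⟩
    · calc _ ≤ (1 : ℝ) * 1 * 1 :=
            mul_le_mul (mul_le_mul e2 f2 f1.le zero_le_one) h2 h1.le (by norm_num)
        _ = 1 := by norm_num
    · rw [wL, Real.mul_rpow (mul_pos e1 f1).le h1.le, Real.mul_rpow e1.le f1.le]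
      have hlen : b ^ (2 * (p :: L).length) = b * b * b ^ (2 * L.length) := by
        rw [List.length_cons, mul_add, mul_one, pow_add]
        ring
      rw [hlen]
      have hw : 0 ≤ wL (a * b) L := wL_nonneg (mul_pos ha hb) L
      have hr1 : 0 ≤ (a * (2 * (p.1 : ℝ) + 1) ^ (-(1 + α))) ^ (1 / (1 + α)) :=
        Real.rpow_nonneg e1.le _
      have hr2 : 0 ≤ (a * (2 * (p.2 : ℝ) + 1) ^ (-(1 + α))) ^ (1 / (1 + α)) :=
        Real.rpow_nonneg f1.le _
      calc a * b / (2 * (p.1 : ℝ) + 1) * (a * b / (2 * (p.2 : ℝ) + 1)) * wL (a * b) L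
          ≤ ((a * (2 * (p.1 : ℝ) + 1) ^ (-(1 + α))) ^ (1 / (1 + α)) * b) *
            ((a * (2 * (p.2 : ℝ) + 1) ^ (-(1 + α))) ^ (1 / (1 + α)) * b) *
            (dc α a L ^ (1 / (1 + α)) * b ^ (2 * L.length)) := by
              refine mul_le_mul (mul_le_mul e3 f3 (by positivity) (by positivity)) h3 hw
                (by positivity)
        _ = _ := by ring

end Pool.Agent.H1.CG
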